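import Pool.Agent.Helper41.LD5.Defs
import Pool.Agent.Helper14.LD4.PCA0
import Pool.Agent.Helper94.LD4.L34

/-!
# Project LD5, block COR1: correlations along nearly linear and convex functions
-/

set_option autoImplicit false

namespace Pool.Agent.Helper94.LD5

open Set MeasureTheory
open Pool.Agent.Helper41.LD (av)
open Pool.Agent.Helper41.LD2 (EqA)
open Pool.Agent.Helper41.LD4
open Pool.Agent.Helper41.LD5
open Pool.Agent.Helper5.LD (ii_bdd int_le_len)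

variable {N₀ N₀' m m₁ m₂ K : ℕ} {w w' : ℝ} {f f' : ℝ → ℝ} {U V U' V' : ℝ → ℝ} {p q a ℓ : ℝ}

/-- the points where the values differ are close to the grid -/
theorem near_grid (hf : Fn N₀ m w f) (hN : 1 ≤ N₀) {S d η : ℝ} (hS : 0 < S) {x y : ℝ} (h : |y - (S * x + d)| ≤ η)
    (hne : f y ≠ f (S * x + d)) : ∃ n : ℤ, |N₀ * (S * x + d) - n| ≤ N₀ * η := by
  have hN0 : (0 : ℝ) < N₀ := by exact_mod_cast hN
  have h1 : ⌊(N₀ : ℝ) * y⌋ ≠ ⌊(N₀ : ℝ) * (S * x + d)⌋ := fun e => hne (hf.grid _ _ e)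
  have h2 := abs_le.1 h
  rcases lt_or_gt_of_ne h1 with h3 | h3
  · refine ⟨⌊(N₀ : ℝ) * (S * x + d)⌋, ?_⟩
    have h4 := Int.floor_le ((N₀ : ℝ) * (S * x + d))
    have h5 : (N₀ : ℝ) * y < ⌊(N₀ : ℝ) * (S * x + d)⌋ := Int.floor_lt.1 h3
    have h6 : (N₀ : ℝ) * (S * x + d) - N₀ * y ≤ N₀ * η := by
      rw [← mul_sub]
      exact mul_le_mul_of_nonneg_left (by linarith) hN0.le
    rw [abs_of_nonneg (by linarith)]
    linarith
  · refine ⟨⌊(N₀ : ℝ) * y⌋, ?_⟩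
    have h4 := Int.floor_le ((N₀ : ℝ) * y)
    have h5 : (N₀ : ℝ) * (S * x + d) < ⌊(N₀ : ℝ) * y⌋ := Int.floor_lt.1 h3
    have h6 : N₀ * y - (N₀ : ℝ) * (S * x + d) ≤ N₀ * η := by
      rw [← mul_sub]
      exact mul_le_mul_of_nonneg_left (by linarith) hN0.le
    rw [abs_of_nonpos (by linarith)]
    linarith

/-- COR1a: nearly linear -/
theorem lin_close (hf : Fn N₀ m w f) (hN : 1 ≤ N₀) (hU : Measurable U) {S d η : ℝ} (hS : 0 < S) (hℓ : 0 < ℓ) (hSℓ : 1 ≤ S * ℓ) (hη : 0 ≤ η)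
    (h : ∀ x ∈ Icc a (a + ℓ), |U x - (S * x + d)| ≤ η) : av (fun x => |f (U x) - f (S * x + d)|) a ℓ ≤ 12 * N₀ * η := by
  have hN0 : (0 : ℝ) < N₀ := by exact_mod_cast hN
  have hN1 : (1 : ℝ) ≤ N₀ := by exact_mod_cast hN
  have hm1 : Measurable fun x => f (S * x + d) := hf.meas.comp ((measurable_const_mul S).add_const d)
  have hm2 : Measurable fun x => f (U x) := hf.meas.comp hU
  have hm : Measurable fun x => |f (U x) - f (S * x + d)| := (continuous_abs.measurable).comp (hm2.sub hm1)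
  have hb : ∀ x, |f (U x) - f (S * x + d)| ≤ 2 := fun x => by
    have h1 := abs_sub (f (U x)) (f (S * x + d))
    have h2 := hf.bdd (U x)
    have h3 := hf.bdd (S * x + d)
    linarith
  unfold av
  rw [div_le_iff₀ hℓ]
  by_cases hbig : 1 ≤ 6 * N₀ * η
  · have h1 := intervalIntegral.norm_integral_le_of_norm_le_const (a := a) (b := a + ℓ)
      (f := fun x => |f (U x) - f (S * x + d)|) (C := 2) fun x _ => by
        rw [Real.norm_eq_abs, abs_abs]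
        exact hb x
    rw [Real.norm_eq_abs, add_sub_cancel_left, abs_of_pos hℓ] at h1
    have h2 := le_abs_self (∫ x in a..a + ℓ, |f (U x) - f (S * x + d)|)
    nlinarith
  have hsm : 6 * N₀ * η < 1 := not_le.1 hbig
  set L : ℤ := ⌈(N₀ : ℝ) * (S * a + d) - N₀ * η⌉ with hL
  set R : ℤ := ⌊(N₀ : ℝ) * (S * (a + ℓ) + d) + N₀ * η⌋ with hR
  set J : ℤ → Set ℝ := fun n => Icc (((n - N₀ * η) / N₀ - d) / S) (((n + N₀ * η) / N₀ - d) / S) with hJ
  set T : Set ℝ := ⋃ n ∈ Finset.Icc L R, J n with hT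
  have hTm : MeasurableSet T := Finset.measurableSet_biUnion _ fun n _ => measurableSet_Icc
  have hTv : volume T ≤ ENNReal.ofReal ((Finset.Icc L R).card * (2 * η / S)) := by
    refine (measure_biUnion_finset_le _ _).trans ?_
    rw [ENNReal.ofReal_mul (by positivity), ENNReal.ofReal_natCast, ← nsmul_eq_mul]
    refine Finset.sum_le_card_nsmul _ _ _ fun n _ => ?_
    rw [hJ]
    show volume (Icc _ _) ≤ _
    rw [Real.volume_Icc]
    refine ENNReal.ofReal_le_ofReal (le_of_eq ?_)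
    field_simp
    ring
  have hcard : ((Finset.Icc L R).card : ℝ) ≤ N₀ * (S * ℓ) + 2 * (N₀ * η) + 1 := by
    rw [Int.card_Icc]
    have h1 : ((R + 1 - L).toNat : ℝ) = ((max (R + 1 - L) 0 : ℤ) : ℝ) := by
      rw [← Int.toNat_eq_max, Int.cast_natCast]
    rw [h1]
    push_cast
    have h2 := Int.floor_le ((N₀ : ℝ) * (S * (a + ℓ) + d) + N₀ * η)
    have h3 := Int.le_ceil ((N₀ : ℝ) * (S * a + d) - N₀ * η)
    rw [← hR] at h2
    rw [← hL] at h3
    refine max_le ?_ (by positivity)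
    have h4 : (N₀ : ℝ) * (S * (a + ℓ) + d) = N₀ * (S * a + d) + N₀ * (S * ℓ) := by ring
    rw [h4] at h2
    linarith
  have hpt : ∀ x ∈ Icc a (a + ℓ), |f (U x) - f (S * x + d)| ≤ T.indicator (fun _ => (2 : ℝ)) x := by
    intro x hx
    by_cases hxT : x ∈ T
    · rw [indicator_of_mem hxT]
      exact hb x
    · rw [indicator_of_notMem hxT]
      by_cases he : f (U x) = f (S * x + d)
      · rw [he, sub_self, abs_zero]
      · exfalso
        obtain ⟨n, hn⟩ := near_grid hf hN hS (h x hx) he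
        apply hxT
        have hn' := abs_le.1 hn
        rw [hT]
        refine mem_iUnion₂.2 ⟨n, ?_, ?_⟩
        · rw [Finset.mem_Icc, hL, hR, Int.ceil_le, Int.le_floor]
          have h1 : (N₀ : ℝ) * (S * a + d) ≤ N₀ * (S * x + d) :=
            mul_le_mul_of_nonneg_left (by nlinarith [hx.1]) hN0.le
          have h2 : (N₀ : ℝ) * (S * x + d) ≤ N₀ * (S * (a + ℓ) + d) :=
            mul_le_mul_of_nonneg_left (by nlinarith [hx.2]) hN0.le
          constructor <;> linarith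
        · rw [hJ]
          constructor
          · rw [div_le_iff₀ hS, sub_le_iff_le_add, div_le_iff₀ hN0]
            nlinarith
          · rw [le_div_iff₀ hS, le_sub_iff_add_le, le_div_iff₀ hN0]
            nlinarith
  have hii : IntervalIntegrable (fun x => |f (U x) - f (S * x + d)|) volume a (a + ℓ) :=
    ii_bdd (C := 2) hm (fun x => by rw [abs_abs]; exact hb x) a (a + ℓ)
  have hit : IntervalIntegrable (T.indicator (fun _ => (2 : ℝ))) volume a (a + ℓ) := by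
    rw [intervalIntegrable_iff_integrableOn_Ioc_of_le (by linarith)]
    exact (integrableOn_const (by simp)).indicator hTm
  have h1 := intervalIntegral.integral_mono_on (by linarith : a ≤ a + ℓ) hii hit hpt
  refine h1.trans ?_
  rw [intervalIntegral.integral_of_le (by linarith), setIntegral_indicator hTm, setIntegral_const, smul_eq_mul]
  have h2 : volume.real (Ioc a (a + ℓ) ∩ T) ≤ (Finset.Icc L R).card * (2 * η / S) := by
    rw [Measure.real]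
    refine ENNReal.toReal_le_of_le_ofReal (by positivity) ((measure_mono inter_subset_right).trans hTv)
  have h3 : ((Finset.Icc L R).card : ℝ) * (2 * η / S) ≤ (N₀ * (S * ℓ) + 2 * (N₀ * η) + 1) * (2 * η / S) :=
    mul_le_mul_of_nonneg_right hcard (by positivity)
  have h4 : (N₀ * (S * ℓ) + 2 * (N₀ * η) + 1) * (2 * η / S) ≤ 6 * N₀ * η * ℓ := by
    rw [mul_div_assoc', div_le_iff₀ hS]
    have h5 : N₀ * (S * ℓ) + 2 * (N₀ * η) + 1 ≤ 3 * (N₀ * (S * ℓ)) := by nlinarith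
    have h6 := mul_le_mul_of_nonneg_right h5 (by positivity : 0 ≤ 2 * η)
    refine h6.trans (le_of_eq ?_)
    ring
  linarith

/-- average of a product with changed factors -/
theorem av_change {F G F' G' : ℝ → ℝ} (hF : Measurable F) (hG : Measurable G) (hF' : Measurable F') (hG' : Measurable G')
    (bF : ∀ x, |F x| ≤ 1) (bG : ∀ x, |G x| ≤ 1) (bF' : ∀ x, |F' x| ≤ 1) (bG' : ∀ x, |G' x| ≤ 1) (hℓ : 0 < ℓ) :
    |av (fun x => F x * G x) a ℓ - av (fun x => F' x * G' x) a ℓ| ≤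
      av (fun x => |F x - F' x|) a ℓ + av (fun x => |G x - G' x|) a ℓ := by
  have hii : ∀ {H : ℝ → ℝ}, Measurable H → (∀ x, |H x| ≤ 2) → IntervalIntegrable H volume a (a + ℓ) := by
    intro H hH bH
    exact ii_bdd (C := 2) hH bH a (a + ℓ)
  have b2 : ∀ {A B : ℝ → ℝ}, (∀ x, |A x| ≤ 1) → (∀ x, |B x| ≤ 1) → ∀ x, |A x * B x| ≤ 2 := by
    intro A B hA hB x
    rw [abs_mul]
    have := mul_le_one₀ (hA x) (abs_nonneg _) (hB x)
    linarith
  have b3 : ∀ {A B : ℝ → ℝ}, (∀ x, |A x| ≤ 1) → (∀ x, |B x| ≤ 1) → ∀ x, |(|A x - B x|)| ≤ 2 := by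
    intro A B hA hB x
    rw [abs_abs]
    have h1 := abs_sub (A x) (B x)
    linarith [hA x, hB x]
  have i1 := hii (hF.mul hG) (b2 bF bG)
  have i2 := hii (hF'.mul hG') (b2 bF' bG')
  have i3 := hii ((continuous_abs.measurable).comp (hF.sub hF')) (b3 bF bF')
  have i4 := hii ((continuous_abs.measurable).comp (hG.sub hG')) (b3 bG bG')
  unfold av
  rw [← sub_div, ← add_div, abs_div, abs_of_pos hℓ]
  refine div_le_div_of_nonneg_right ?_ hℓ.le
  have e1 : (∫ x in a..a + ℓ, F x * G x) - (∫ x in a..a + ℓ, F' x * G' x) =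
      ∫ x in a..a + ℓ, (F x * G x - F' x * G' x) := (intervalIntegral.integral_sub i1 i2).symm
  have e2 : (∫ x in a..a + ℓ, |F x - F' x|) + (∫ x in a..a + ℓ, |G x - G' x|) =
      ∫ x in a..a + ℓ, (|F x - F' x| + |G x - G' x|) := (intervalIntegral.integral_add i3 i4).symm
  rw [e1, e2]
  refine (intervalIntegral.abs_integral_le_integral_abs (by linarith)).trans ?_
  refine intervalIntegral.integral_mono_on (by linarith) (i1.sub i2).abs (i3.add i4) fun x _ => ?_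
  have e3 : F x * G x - F' x * G' x = (F x - F' x) * G x + F' x * (G x - G' x) := by ring
  show |F x * G x - F' x * G' x| ≤ |F x - F' x| + |G x - G' x|
  rw [e3]
  refine (abs_add_le _ _).trans (add_le_add ?_ ?_)
  · rw [abs_mul]
    exact mul_le_of_le_one_right (abs_nonneg _) (bG x)
  · rw [abs_mul]
    exact mul_le_of_le_one_left (abs_nonneg _) (bF' x)

/-- the error is small -/
theorem err_le (hm : 12 ≤ m) (hN2 : N₀ ≤ m * 2 ^ K) : 12 * (N₀ : ℝ) * (1 / 2) ^ (16 * K) ≤ (m : ℝ) ^ 2 * (1 / 2) ^ (12 * K) := by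
  have hm0 : (12 : ℝ) ≤ m := by exact_mod_cast hm
  have h1 : (N₀ : ℝ) ≤ m * 2 ^ K := by exact_mod_cast hN2
  have e1 : (1 / 2 : ℝ) ^ (16 * K) = (1 / 2) ^ (12 * K) * (1 / 2) ^ (4 * K) := by
    rw [← pow_add]
    congr 1
    ring
  have h2 : (2 : ℝ) ^ K * (1 / 2) ^ (4 * K) ≤ 1 := by
    have e2 : (1 / 2 : ℝ) ^ (4 * K) = (1 / 2) ^ K * (1 / 2) ^ (3 * K) := by
      rw [← pow_add]
      congr 1
      ring
    rw [e2, ← mul_assoc, ← mul_pow]
    norm_num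
    exact pow_le_one₀ (by norm_num) (by norm_num)
  have hW : 0 < (1 / 2 : ℝ) ^ (12 * K) := by positivity
  rw [e1]
  calc 12 * (N₀ : ℝ) * ((1 / 2) ^ (12 * K) * (1 / 2) ^ (4 * K)) ≤ 12 * (m * 2 ^ K) * ((1 / 2) ^ (12 * K) * (1 / 2) ^ (4 * K)) :=
        mul_le_mul_of_nonneg_right (by linarith) (by positivity)
    _ = 12 * m * (1 / 2) ^ (12 * K) * (2 ^ K * (1 / 2) ^ (4 * K)) := by ring
    _ ≤ 12 * m * (1 / 2) ^ (12 * K) * 1 := mul_le_mul_of_nonneg_left h2 (by positivity)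
    _ ≤ (m : ℝ) ^ 2 * (1 / 2) ^ (12 * K) := by
        rw [mul_one]
        exact mul_le_mul_of_nonneg_right (by nlinarith) hW.le

/-- COR1b: far apart, from `cv_int`, `cv_far` -/
theorem corr_far5_of
    (cv_int : ∀ {N₀ m : ℕ} {w : ℝ} {f U V : ℝ → ℝ} {p q : ℝ}, Fn N₀ m w f → Cv U V p q → p ≤ q → |∫ x in p..q, f (U x)| ≤ w / V p)
    (cv_far : ∀ {N₀ m : ℕ} {w : ℝ} {f U V : ℝ → ℝ} {p q : ℝ}, Fn N₀ m w f → Cv U V p q → p ≤ q → ∀ {g : ℝ → ℝ}, Measurable g →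
      (∀ x, |g x| ≤ 1) → ∀ {η : ℝ}, (∀ s t, p ≤ s → s ≤ t → t ≤ q → |∫ x in s..t, g x| ≤ η) →
      |∫ x in p..q, f (U x) * g x| ≤ m * η * (U q - U p + 2))
    (hm : 1 ≤ m) (hf : Fn N₀ m₁ w f) (hf' : Fn N₀' m₂ w' f') (hm₁ : m₁ ≤ m) (hw'0 : 0 ≤ w') (hw' : w' ≤ m)
    (h : Cv U V a (a + ℓ)) (h' : Cv U' V' a (a + ℓ)) (hℓ : 0 < ℓ) (h2 : V (a + ℓ) ≤ 2 * V a) (hST : V a ≤ (1 / 2) ^ (12 * K) * V' a)
    (hT : (2 : ℝ) ^ (12 * K) ≤ V' a * ℓ) : |av (fun x => f (U x) * f' (U' x)) a ℓ| ≤ 6 * (m : ℝ) ^ 2 * (1 / 2) ^ (12 * K) := by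
  have ha : a ∈ Icc a (a + ℓ) := ⟨le_rfl, by linarith⟩
  have hb : a + ℓ ∈ Icc a (a + ℓ) := ⟨by linarith, le_rfl⟩
  have hVp := h'.pos a ha
  have hm0 : (1 : ℝ) ≤ m := by exact_mod_cast hm
  have hm1 : (m₁ : ℝ) ≤ m := by exact_mod_cast hm₁
  set η : ℝ := w' / V' a with hηd
  have hη0 : 0 ≤ η := div_nonneg hw'0 hVp.le
  have hη : ∀ s t, a ≤ s → s ≤ t → t ≤ a + ℓ → |∫ x in s..t, f' (U' x)| ≤ η := by
    intro s t h3 h4 h5
    refine (cv_int hf' (h'.sub h3 h5) h4).trans ?_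
    exact div_le_div_of_nonneg_left hw'0 hVp (h'.mono ha ⟨h3, h4.trans h5⟩ h3)
  have h6 := cv_far hf h (by linarith : a ≤ a + ℓ) (g := fun x => f' (U' x)) (hf'.meas.comp h'.meas) (fun x => hf'.bdd _) hη
  have h7 : U (a + ℓ) - U a ≤ 2 * V a * ℓ := by
    have hc : ContinuousOn U (Icc a (a + ℓ)) := fun x hx => (h.der x hx).continuousAt.continuousWithinAt
    obtain ⟨c, hc1, hc2⟩ := exists_hasDerivAt_eq_slope U V (by linarith : a < a + ℓ) hc fun x hx => h.der x ⟨hx.1.le, hx.2.le⟩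
    rw [add_sub_cancel_left, eq_div_iff hℓ.ne'] at hc2
    have h8 := h.mono ⟨hc1.1.le, hc1.2.le⟩ hb hc1.2.le
    rw [← hc2]
    exact mul_le_mul_of_nonneg_right (h8.trans h2) hℓ.le
  unfold av
  rw [abs_div, abs_of_pos hℓ, div_le_iff₀ hℓ]
  refine h6.trans ?_
  set W : ℝ := (1 / 2) ^ (12 * K) with hW
  have hW0 : 0 < W := by positivity
  have hWZ : W * 2 ^ (12 * K) = 1 := by
    rw [hW, ← mul_pow]
    norm_num
  have h9 : η * (2 * V a * ℓ + 2) ≤ m * (4 * W * ℓ) := by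
    rw [hηd, div_mul_eq_mul_div, div_le_iff₀ hVp]
    have h10 : 2 ≤ 2 * W * (V' a * ℓ) := by
      have := mul_le_mul_of_nonneg_left hT hW0.le
      rw [hWZ] at this
      linarith
    have h11 : 2 * V a * ℓ ≤ 2 * (W * V' a) * ℓ := by
      refine mul_le_mul_of_nonneg_right (by linarith) hℓ.le
    have h12 : 2 * V a * ℓ + 2 ≤ 4 * W * ℓ * V' a := by nlinarith
    have h13 : 0 ≤ 4 * W * ℓ * V' a := by positivity
    calc w' * (2 * V a * ℓ + 2) ≤ w' * (4 * W * ℓ * V' a) := mul_le_mul_of_nonneg_left h12 hw'0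
      _ ≤ m * (4 * W * ℓ * V' a) := mul_le_mul_of_nonneg_right hw' h13
      _ = m * (4 * W * ℓ) * V' a := by ring
  have hVa := h.pos a ha
  have h14 : m₁ * η * (U (a + ℓ) - U a + 2) ≤ m₁ * (m * (4 * W * ℓ)) := by
    rw [mul_assoc]
    refine mul_le_mul_of_nonneg_left ?_ (Nat.cast_nonneg _)
    exact (mul_le_mul_of_nonneg_left (by linarith) hη0).trans h9
  have h15 : (m₁ : ℝ) * (m * (4 * W * ℓ)) ≤ m * (m * (4 * W * ℓ)) := mul_le_mul_of_nonneg_right hm1 (by positivity)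
  have h16 : 0 ≤ (m : ℝ) ^ 2 * W * ℓ := by positivity
  nlinarith

/-- COR1c: near, equidistributed quotient -/
theorem corr_near5 (hm : 12 ≤ m) (hf : Fn N₀ m₁ w f) (hf' : Fn N₀' m₂ w' f') (hm₂ : m₂ ≤ m) (hN : 1 ≤ N₀) (hN' : 1 ≤ N₀') (hN2 : N₀ ≤ m * 2 ^ K)
    (hN2' : N₀' ≤ m * 2 ^ K) {Q₀ : ℕ} {ε : ℝ} (hε0 : 0 ≤ ε) (hε : ε ≤ (1 / 2) ^ (12 * K)) {S T d d' : ℝ} (hS : 0 < S) (hST : S ≤ T) (hℓ : 0 < ℓ)
    (hE : EqA (T / S) Q₀ ε) (hSℓ : ((Q₀ : ℝ) + 1) * 2 ^ (12 * K) ≤ S * ℓ) (hU : Measurable U) (hU' : Measurable U')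
    (h : ∀ x ∈ Icc a (a + ℓ), |U x - (S * x + d)| ≤ (1 / 2) ^ (16 * K)) (h' : ∀ x ∈ Icc a (a + ℓ), |U' x - (T * x + d')| ≤ (1 / 2) ^ (16 * K)) :
    |av (fun x => f (U x) * f' (U' x)) a ℓ| ≤ 6 * (m : ℝ) ^ 2 * (1 / 2) ^ (12 * K) := by
  have hT : 0 < T := hS.trans_le hST
  have hS1 : 1 ≤ S * ℓ := by
    refine le_trans ?_ hSℓ
    have h1 : (1 : ℝ) ≤ 2 ^ (12 * K) := one_le_pow₀ (by norm_num)
    have h2 : (0 : ℝ) ≤ Q₀ := Nat.cast_nonneg _
    nlinarith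
  have hT1 : 1 ≤ T * ℓ := hS1.trans (mul_le_mul_of_nonneg_right hST hℓ.le)
  have h0 : (0 : ℝ) ≤ (1 / 2) ^ (16 * K) := by positivity
  have h1 := Pool.Agent.Helper14.LD4.near_gen (m := m) (K := K) (by omega) hf hf' hm₂ hε0 hε hS hT hℓ hE hSℓ d d' a
  have h2 := lin_close (a := a) hf hN hU hS hℓ hS1 h0 h
  have h3 := lin_close (a := a) hf' hN' hU' hT hℓ hT1 h0 h'
  have h4 := av_change (a := a) (ℓ := ℓ) (hf.meas.comp hU) (hf'.meas.comp hU')
    (hf.meas.comp ((measurable_const_mul S).add_const d)) (hf'.meas.comp ((measurable_const_mul T).add_const d'))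
    (fun x => hf.bdd _) (fun x => hf'.bdd _) (fun x => hf.bdd _) (fun x => hf'.bdd _) hℓ
  simp only [Function.comp_def] at h4
  have h5 := err_le (K := K) hm hN2
  have h6 := err_le (K := K) hm hN2'
  have h7 := abs_sub_abs_le_abs_sub (av (fun x => f (U x) * f' (U' x)) a ℓ) (av (fun x => f (S * x + d) * f' (T * x + d')) a ℓ)
  have h8 : 0 ≤ (m : ℝ) ^ 2 * (1 / 2) ^ (12 * K) := by positivity
  linarith

/-- COR1d: the same function -/
theorem corr_same5 (hm : 12 ≤ m) (hf : Fn N₀ m₁ w f) (hf' : Fn N₀' m₂ w' f') (hN : 1 ≤ N₀) (hN' : 1 ≤ N₀') (hN2 : N₀ ≤ m * 2 ^ K)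
    (hN2' : N₀' ≤ m * 2 ^ K) {S d : ℝ} (hS : 0 < S) (hℓ : 0 < ℓ) (hSℓ : (2 : ℝ) ^ (12 * K) ≤ S * ℓ) (hU : Measurable U)
    (h : ∀ x ∈ Icc a (a + ℓ), |U x - (S * x + d)| ≤ (1 / 2) ^ (16 * K)) :
    |av (fun x => f (U x) * f' (U x)) a ℓ - ∫ t in (0 : ℝ)..1, f t * f' t| ≤ 6 * (m : ℝ) ^ 2 * (1 / 2) ^ (12 * K) := by
  have hS1 : 1 ≤ S * ℓ := (one_le_pow₀ (by norm_num)).trans hSℓ
  have h0 : (0 : ℝ) ≤ (1 / 2) ^ (16 * K) := by positivity
  have h1 := Pool.Agent.Helper94.LD4.corr_same (a := a) (d := d) hf hf' hS hℓ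
  have h2 := lin_close (a := a) hf hN hU hS hℓ hS1 h0 h
  have h3 := lin_close (a := a) hf' hN' hU hS hℓ hS1 h0 h
  have h4 := av_change (a := a) (ℓ := ℓ) (hf.meas.comp hU) (hf'.meas.comp hU)
    (hf.meas.comp ((measurable_const_mul S).add_const d)) (hf'.meas.comp ((measurable_const_mul S).add_const d))
    (fun x => hf.bdd _) (fun x => hf'.bdd _) (fun x => hf.bdd _) (fun x => hf'.bdd _) hℓ
  simp only [Function.comp_def] at h4
  have h5 := err_le (K := K) hm hN2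
  have h6 := err_le (K := K) hm hN2'
  have hW : (1 / 2 : ℝ) ^ (12 * K) * 2 ^ (12 * K) = 1 := by
    rw [← mul_pow]
    norm_num
  have h7 : 2 / (S * ℓ) ≤ 2 * (1 / 2 : ℝ) ^ (12 * K) := by
    rw [div_le_iff₀ (by linarith)]
    have := mul_le_mul_of_nonneg_left hSℓ (by positivity : (0 : ℝ) ≤ (1 / 2) ^ (12 * K))
    rw [hW] at this
    linarith
  have hm0 : (12 : ℝ) ≤ m := by exact_mod_cast hm
  have h8 : 2 * (1 / 2 : ℝ) ^ (12 * K) ≤ (m : ℝ) ^ 2 * (1 / 2) ^ (12 * K) :=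
    mul_le_mul_of_nonneg_right (by nlinarith) (by positivity)
  have h9 : 0 ≤ (m : ℝ) ^ 2 * (1 / 2) ^ (12 * K) := by positivity
  have h10 := abs_sub_le (av (fun x => f (U x) * f' (U x)) a ℓ) (av (fun x => f (S * x + d) * f' (S * x + d)) a ℓ)
    (∫ t in (0 : ℝ)..1, f t * f' t)
  linarith

end Pool.Agent.Helper94.LD5
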