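import Pool.Agent.Helper94.LD5.COR1
import Pool.Agent.Helper5.LD5.SQ1

/-!
# Project LD5, block COR1b: correlations of far apart functions
-/

set_option autoImplicit false

namespace Pool.Agent.Helper94.LD5

open Set MeasureTheory
open Pool.Agent.Helper41.LD (av)
open Pool.Agent.Helper41.LD4
open Pool.Agent.Helper41.LD5

variable {N₀ N₀' m m₁ m₂ K : ℕ} {w w' : ℝ} {f f' : ℝ → ℝ} {U V U' V' : ℝ → ℝ} {a ℓ : ℝ}

/-- COR1b: far apart -/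
theorem corr_far5 (hm : 1 ≤ m) (hf : Fn N₀ m₁ w f) (hf' : Fn N₀' m₂ w' f') (hm₁ : m₁ ≤ m) (hw'0 : 0 ≤ w') (hw' : w' ≤ m)
    (h : Cv U V a (a + ℓ)) (h' : Cv U' V' a (a + ℓ)) (hℓ : 0 < ℓ) (h2 : V (a + ℓ) ≤ 2 * V a) (hST : V a ≤ (1 / 2) ^ (12 * K) * V' a)
    (hT : (2 : ℝ) ^ (12 * K) ≤ V' a * ℓ) : |av (fun x => f (U x) * f' (U' x)) a ℓ| ≤ 6 * (m : ℝ) ^ 2 * (1 / 2) ^ (12 * K) :=
  corr_far5_of (fun hf h hpq => Pool.Agent.Helper5.LD5.cv_int hf h hpq)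
    (fun hf h hpq _ hg hg1 _ hη => Pool.Agent.Helper5.LD5.cv_far hf h hpq hg hg1 hη) hm hf hf' hm₁ hw'0 hw' h h' hℓ h2 hST hT

end Pool.Agent.Helper94.LD5
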